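import Pool.Agent.Helper95.Lin.GoalsA
import Pool.Agent.Helper95.Lin.Basics

/-! # Packet CMP: linear comparison of displacements -/

open Complex Metric Set Filter Topology MeasureTheory
open scoped ContDiff ComplexConjugate ComplexOrder

namespace Pool.Agent.Helper33.Lin

open Pool.Agent.Helper95.Lin

variable {b : ℕ} {D : Set (Cn b)} {Γ : Type} [Group Γ] {g : Γ → Cn b → Cn b}

theorem small (hM : S_MONTEL) (hI : S_IDT) (h : HAct D g) {K₀ : Set (Cn b)} (hK₀ : K₀ ⊆ D)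
    (hint : (interior K₀).Nonempty) {K : Set (Cn b)} (hK : K ⊆ D) (hKc : IsCompact K)
    {ε : ℝ} (hε : 0 < ε) :
    ∃ η : ℝ, 0 < η ∧ ∀ γ, (∀ z ∈ K₀, ‖g γ z - z‖ ≤ η) → ∀ z ∈ K, ‖g γ z - z‖ ≤ ε := by
  by_contra hcon
  push Not at hcon
  have h1 : ∀ n : ℕ, ∃ γ, (∀ z ∈ K₀, ‖g γ z - z‖ ≤ 1 / ((n : ℝ) + 1)) ∧
      ∃ z ∈ K, ε < ‖g γ z - z‖ := fun n => hcon _ (by positivity)
  choose γ hγ z hz hzε using h1
  obtain ⟨R, hR, hRD⟩ := h.dom.exists_norm_le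
  obtain ⟨φ, hφ, F, hF, hlim⟩ := hM D h.dom.isOpen (fun n => g (γ n))
    (fun n => h.act.holo _) (fun L hL _ => ⟨R, fun k z hz => hRD _ (h.act.maps _ _ (hL hz))⟩)
  have hFK₀ : ∀ z ∈ K₀, F z = z := by
    intro z hz
    rw [← sub_eq_zero, ← norm_le_zero_iff]
    refine le_of_forall_pos_le_add fun e he => ?_
    have h2 := hlim {z} (singleton_subset_iff.2 (hK₀ hz)) isCompact_singleton (e / 2)
      (by positivity)
    have h3 : ∀ᶠ k in atTop, 1 / ((φ k : ℝ) + 1) ≤ e / 2 := by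
      have h4 : Tendsto (fun k => 1 / ((φ k : ℝ) + 1)) atTop (𝓝 0) :=
        tendsto_one_div_add_atTop_nhds_zero_nat.comp hφ.tendsto_atTop
      exact (h4.eventually (gt_mem_nhds (by positivity : (0 : ℝ) < e / 2))).mono
        fun k hk => hk.le
    obtain ⟨k, hk1, hk2⟩ := (h2.and h3).exists
    have h5 := hk1 z rfl
    have h6 := (hγ (φ k) z hz).trans hk2
    have h7 : F z - z = (g (γ (φ k)) z - z) - (g (γ (φ k)) z - F z) := by abel
    rw [h7]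
    have := norm_sub_le (g (γ (φ k)) z - z) (g (γ (φ k)) z - F z)
    linarith
  obtain ⟨z₀, hz₀⟩ := hint
  have hid : ∀ z ∈ D, F z - z = 0 := hI D h.dom.isOpen h.dom.conn.isPreconnected
    (fun z => F z - z) (hF.sub differentiableOn_id) z₀ (hK₀ (interior_subset hz₀)) (by
      filter_upwards [mem_interior_iff_mem_nhds.1 hz₀] with z hz
      simp [hFK₀ z hz])
  obtain ⟨k, hk⟩ := (hlim K hK hKc (ε / 2) (by positivity)).exists
  have h8 := hk (z (φ k)) (hz _)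
  have h9 := hzε (φ k)
  rw [sub_eq_zero.1 (hid _ (hK (hz (φ k))))] at h8
  linarith

/-- The displacement of the powers is almost linear. -/
theorem powers (h : HAct D g) {Kp : Set (Cn b)} (hKp : Kp ⊆ D)
    {γ : Γ} {x : Cn b} (hx : x ∈ Kp) (hgx : g γ x ∈ Kp) {m : ℕ}
    (hi : ∀ i < m, ∀ y ∈ Kp, ∀ y' ∈ Kp,
      ‖(g (γ ^ i) y - y) - (g (γ ^ i) y' - y')‖ ≤ 1 / 2 * ‖y - y'‖) :
    ‖g (γ ^ m) x - x - (m : ℝ) • (g γ x - x)‖ ≤ (m : ℝ) / 2 * ‖g γ x - x‖ := by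
  induction m with
  | zero => simp [h.act.one x (hKp hx)]
  | succ m ih =>
    have h1 := ih fun i him => hi i (by omega)
    have h2 := hi m (by omega) _ hgx _ hx
    rw [h.act.pow' γ m (hKp hx)]
    have h3 : g (γ ^ m) (g γ x) - x - ((m + 1 : ℕ) : ℝ) • (g γ x - x) =
        (g (γ ^ m) x - x - (m : ℝ) • (g γ x - x)) +
        ((g (γ ^ m) (g γ x) - g γ x) - (g (γ ^ m) x - x)) := by
      push_cast
      rw [add_smul, one_smul]
      abel
    rw [h3]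
    refine (norm_add_le _ _).trans ?_
    push_cast
    linarith

theorem stmtCMP (hM : S_MONTEL) (hI : S_IDT) (hC : S_CAU) : S_CMP := by
  intro b D Γ _ g h K₀ hK₀ hK₀c hint K hK hKc
  obtain ⟨Kp, hKpD, hKpc, hLKp, -⟩ := hC (m := b) D h.dom.isOpen (K ∪ K₀) (union_subset hK hK₀)
    (hKc.union hK₀c)
  obtain ⟨K₁, hK₁D, hK₁c, hKpK₁, C₁, hC₁, hcau⟩ := hC (m := b) D h.dom.isOpen Kp hKpD hKpc
  obtain ⟨δ, hδ, hδK⟩ := (hKc.union hK₀c).exists_cthickening_subset_open isOpen_interior hLKp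
  have hmem : ∀ x ∈ K ∪ K₀, ∀ y, ‖y - x‖ ≤ δ → y ∈ Kp := by
    intro x hx y hy
    refine interior_subset (hδK ?_)
    exact mem_cthickening_of_dist_le y x δ _ hx (by rwa [dist_eq_norm])
  set θ : ℝ := min δ (1 / (2 * (C₁ + 1))) with hθ
  have hθ0 : 0 < θ := by positivity
  have hθδ : θ ≤ δ := min_le_left _ _
  have hCθ : C₁ * θ ≤ 1 / 2 := by
    have h1 : θ ≤ 1 / (2 * (C₁ + 1)) := min_le_right _ _
    calc C₁ * θ ≤ C₁ * (1 / (2 * (C₁ + 1))) := mul_le_mul_of_nonneg_left h1 hC₁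
      _ ≤ 1 / 2 := by
        rw [mul_one_div, div_le_div_iff₀ (by positivity) (by norm_num)]
        nlinarith
  obtain ⟨η, hη, hsmall⟩ := small hM hI h hK₀ hint hK₁D hK₁c hθ0
  refine ⟨8 * θ / η, η, by positivity, hη, ?_⟩
  intro γ s hs hγ x hx
  have hs0 : 0 ≤ s := by
    obtain ⟨z₀, hz₀⟩ := hint
    exact (norm_nonneg _).trans (hγ z₀ (interior_subset hz₀))
  have hγ1 : ∀ z ∈ K₁, ‖g γ z - z‖ ≤ θ := hsmall γ fun z hz => (hγ z hz).trans hs
  have hLp : ∀ y ∈ K ∪ K₀, y ∈ Kp := fun y hy => interior_subset (hLKp hy)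
  have hp1 : ∀ y ∈ Kp, y ∈ K₁ := fun y hy => interior_subset (hKpK₁ hy)
  have hgp : ∀ y ∈ K ∪ K₀, g γ y ∈ Kp := fun y hy =>
    hmem y hy _ ((hγ1 y (hp1 y (hLp y hy))).trans hθδ)
  have hlip : ∀ i : ℕ, (∀ z ∈ K₁, ‖g (γ ^ i) z - z‖ ≤ θ) → ∀ y ∈ Kp, ∀ y' ∈ Kp,
      ‖(g (γ ^ i) y - y) - (g (γ ^ i) y' - y')‖ ≤ 1 / 2 * ‖y - y'‖ := by
    intro i hi y hy y' hy'
    have h1 := (hcau (fun z => g (γ ^ i) z - z) ((h.act.holo _).sub differentiableOn_id) θ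
      hi).2 y hy y' hy'
    exact h1.trans (mul_le_mul_of_nonneg_right hCθ (norm_nonneg _))
  have hpow : ∀ m : ℕ, (∀ i < m, ∀ z ∈ K₁, ‖g (γ ^ i) z - z‖ ≤ θ) → ∀ y ∈ K ∪ K₀,
      ‖g (γ ^ m) y - y - (m : ℝ) • (g γ y - y)‖ ≤ (m : ℝ) / 2 * ‖g γ y - y‖ := by
    intro m hm y hy
    exact powers h hKpD (hLp y hy) (hgp y hy) fun i hi => hlip i (hm i hi)
  have hlow : ∀ m : ℕ, (∀ i < m, ∀ z ∈ K₁, ‖g (γ ^ i) z - z‖ ≤ θ) → ∀ y ∈ K ∪ K₀,
      (m : ℝ) / 2 * ‖g γ y - y‖ ≤ ‖g (γ ^ m) y - y‖ := by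
    intro m hm y hy
    have h1 := hpow m hm y hy
    have h2 : ‖(m : ℝ) • (g γ y - y)‖ ≤ ‖g (γ ^ m) y - y‖ +
        ‖g (γ ^ m) y - y - (m : ℝ) • (g γ y - y)‖ := by
      have := norm_sub_le (g (γ ^ m) y - y) (g (γ ^ m) y - y - (m : ℝ) • (g γ y - y))
      rwa [sub_sub_cancel] at this
    rw [norm_smul, Real.norm_of_nonneg (by positivity)] at h2
    linarith
  have hup : ∀ m : ℕ, (∀ i < m, ∀ z ∈ K₁, ‖g (γ ^ i) z - z‖ ≤ θ) → ∀ y ∈ K ∪ K₀,
      ‖g (γ ^ m) y - y‖ ≤ 2 * m * ‖g γ y - y‖ := by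
    intro m hm y hy
    have h1 := hpow m hm y hy
    have h2 : ‖g (γ ^ m) y - y‖ ≤ ‖(m : ℝ) • (g γ y - y)‖ +
        ‖g (γ ^ m) y - y - (m : ℝ) • (g γ y - y)‖ := by
      have := norm_add_le ((m : ℝ) • (g γ y - y)) (g (γ ^ m) y - y - (m : ℝ) • (g γ y - y))
      rwa [add_sub_cancel] at this
    rw [norm_smul, Real.norm_of_nonneg (by positivity)] at h2
    have h3 : 0 ≤ (m : ℝ) * ‖g γ y - y‖ := by positivity
    linarith
  by_cases hall : ∀ i : ℕ, ∀ z ∈ K₁, ‖g (γ ^ i) z - z‖ ≤ θ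
  · -- all powers are small
    have h1 : ‖g γ x - x‖ ≤ 0 := by
      by_contra hcon
      push Not at hcon
      obtain ⟨m, hm⟩ := exists_nat_gt (2 * θ / ‖g γ x - x‖)
      have h2 := hlow m (fun i _ => hall i) x (Or.inl hx)
      have h3 := hall m x (hp1 _ (hLp _ (Or.inl hx)))
      rw [div_lt_iff₀ hcon] at hm
      linarith
    exact h1.trans (by positivity)
  · push Not at hall
    classical
    obtain ⟨m, hm, hmin⟩ : ∃ m : ℕ, (∃ z ∈ K₁, θ < ‖g (γ ^ m) z - z‖) ∧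
        ∀ i < m, ∀ z ∈ K₁, ‖g (γ ^ i) z - z‖ ≤ θ := by
      refine ⟨Nat.find hall, Nat.find_spec hall, fun i hi z hz => ?_⟩
      have := Nat.find_min hall hi
      push Not at this
      exact this z hz
    -- the displacement on `K₀` of `γ ^ m` is large
    have h1 : η < 2 * m * s := by
      by_contra hcon
      push Not at hcon
      obtain ⟨z, hz, hzθ⟩ := hm
      refine absurd (hsmall (γ ^ m) (fun y hy => ?_) z hz) (not_le.2 hzθ)
      refine (hup m hmin y (Or.inr hy)).trans (le_trans ?_ hcon)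
      exact mul_le_mul_of_nonneg_left (hγ y hy) (by positivity)
    have hm0 : m ≠ 0 := by
      rintro rfl
      simp at h1
      linarith
    -- the displacement on `K` of `γ ^ m` is at most `2 θ`
    have h2 : ‖g (γ ^ m) x - x‖ ≤ 2 * θ := by
      obtain ⟨k, rfl⟩ := Nat.exists_eq_succ_of_ne_zero hm0
      have h3 := hmin k (by omega) (g γ x) (hp1 _ (hgp x (Or.inl hx)))
      have h4 := hγ1 x (hp1 _ (hLp _ (Or.inl hx)))
      rw [Nat.succ_eq_add_one, h.act.pow' γ k (hK hx)]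
      have h5 : g (γ ^ k) (g γ x) - x = (g (γ ^ k) (g γ x) - g γ x) + (g γ x - x) := by abel
      rw [h5]
      refine (norm_add_le _ _).trans ?_
      linarith
    have h3 := hlow m hmin x (Or.inl hx)
    have hmpos : (0 : ℝ) < m := by exact_mod_cast Nat.pos_of_ne_zero hm0
    have h4 : (m : ℝ) * ‖g γ x - x‖ ≤ 4 * θ := by linarith
    have h5 : (m : ℝ) * (8 * θ / η * s) ≥ 4 * θ := by
      rw [ge_iff_le, div_mul_eq_mul_div, mul_div_assoc', le_div_iff₀ hη]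
      nlinarith
    nlinarith

end Pool.Agent.Helper33.Lin
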