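import Pool.Agent.Helper95.Lin.GoalsI
import Pool.Agent.Helper95.Lin.Basics

/-! # Packet LATT: the lattice in the discrete case -/

open Complex Metric Set Filter Topology MeasureTheory
open scoped ContDiff ComplexConjugate ComplexOrder

namespace Pool.Agent.Helper33.Lin

open Pool.Agent.Helper95.Lin

section latt

variable {b : ℕ} {D : Set (Cn b)} {Γ : Type} [Group Γ] {g : Γ → Cn b → Cn b}
  {a β : Γ → Cn b → ℂ}

/-- The elements acting trivially on `D`. -/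
def kerG (h : LAct D g a β) : Subgroup Γ where
  carrier := {ν | ∀ y ∈ D, g ν y = y}
  one_mem' := h.base.act.one
  mul_mem' := by
    intro x y hx hy z hz
    rw [h.base.act.mul _ _ z hz, hy z hz, hx z hz]
  inv_mem' := by
    intro x hx z hz
    have h1 := h.base.act.inv_left x hz
    rwa [hx z hz] at h1

/-- The fibrewise translations. -/
def kerT (h : LAct D g a β) : Subgroup Γ where
  carrier := {ν | ∀ y ∈ D, g ν y = y ∧ a ν y = 1}
  one_mem' := fun y hy => ⟨h.base.act.one y hy, h.a_one y hy⟩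
  mul_mem' := by
    intro x y hx hy z hz
    refine ⟨by rw [h.base.act.mul _ _ z hz, (hy z hz).1, (hx z hz).1], ?_⟩
    rw [h.a_mul _ _ z hz, (hy z hz).1, (hx z hz).2, (hy z hz).2, one_mul]
  inv_mem' := by
    intro x hx z hz
    have h1 := h.base.act.inv_left x hz
    rw [(hx z hz).1] at h1
    refine ⟨h1, ?_⟩
    have h2 := h.a_mul x⁻¹ x z hz
    rw [inv_mul_cancel, h.a_one z hz, (hx z hz).1, (hx z hz).2, mul_one] at h2
    exact h2.symm

/-- The translation part at `z`. -/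
def trans (h : LAct D g a β) {z : Cn b} (hz : z ∈ D) : kerT h →* Multiplicative ℂ where
  toFun ν := Multiplicative.ofAdd (β (ν : Γ) z)
  map_one' := by
    simp only [OneMemClass.coe_one, h.b_one z hz, ofAdd_zero]
  map_mul' := by
    intro x y
    have hx := x.2 z hz
    have hy := y.2 z hz
    rw [← ofAdd_add]
    congr 1
    rw [Subgroup.coe_mul, h.b_mul _ _ z hz, hy.1, hx.2, one_mul, add_comm]

theorem trans_comb (h : LAct D g a β) {z : Cn b} (hz : z ∈ D) (ν₁ ν₂ : kerT h) (m n : ℤ) :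
    β ((ν₁ ^ m * ν₂ ^ n : kerT h) : Γ) z = m * β (ν₁ : Γ) z + n * β (ν₂ : Γ) z := by
  have h1 := congrArg Multiplicative.toAdd ((trans h hz).map_mul (ν₁ ^ m) (ν₂ ^ n))
  rw [map_zpow, map_zpow, toAdd_mul, toAdd_zpow, toAdd_zpow, zsmul_eq_mul, zsmul_eq_mul] at h1
  exact h1

theorem nodep (h : LAct D g a β) {z₀ : Cn b} (hz₀ : z₀ ∈ D) {ν₁ ν₂ : kerT h}
    (hli : LinearIndependent ℝ ![β (ν₁ : Γ) z₀, β (ν₂ : Γ) z₀]) {z : Cn b} (hz : z ∈ D)
    (c : ℝ) (hc : β (ν₂ : Γ) z = c * β (ν₁ : Γ) z) : False := by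
  have hfin := h.proper {z} (singleton_subset_iff.2 hz) isCompact_singleton
    ‖β (ν₁ : Γ) z‖
  refine (Set.infinite_of_injective_forall_mem (f := fun n : ℕ =>
    ((ν₁ ^ (-⌊(n : ℝ) * c⌋) * ν₂ ^ (n : ℤ) : kerT h) : Γ)) ?_ ?_) hfin
  · intro n n' hnn
    have h1 := trans_comb h hz₀ ν₁ ν₂ (-⌊(n : ℝ) * c⌋) n
    have h2 := trans_comb h hz₀ ν₁ ν₂ (-⌊(n' : ℝ) * c⌋) n'
    have hnn' : ((ν₁ ^ (-⌊(n : ℝ) * c⌋) * ν₂ ^ (n : ℤ) : kerT h) : Γ) =
      ((ν₁ ^ (-⌊(n' : ℝ) * c⌋) * ν₂ ^ (n' : ℤ) : kerT h) : Γ) := hnn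
    rw [hnn', h2] at h1
    rw [LinearIndependent.pair_iff] at hli
    have h3 := (hli (((-⌊(n' : ℝ) * c⌋ : ℤ) : ℝ) - ((-⌊(n : ℝ) * c⌋ : ℤ) : ℝ))
      ((n' : ℝ) - n) (by
        rw [real_smul, real_smul]
        push_cast at h1 ⊢
        linear_combination h1)).2
    have h4 : (n' : ℝ) = n := by linarith
    exact_mod_cast h4.symm
  · intro n
    refine ⟨z, rfl, 0, by simp, ?_, ?_⟩
    · exact ((ν₁ ^ (-⌊(n : ℝ) * c⌋) * ν₂ ^ (n : ℤ) : kerT h).2 z hz).1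
    · rw [mul_zero, zero_add, trans_comb h hz, hc]
      have h1 : ((-⌊(n : ℝ) * c⌋ : ℤ) : ℂ) * β (ν₁ : Γ) z + ((n : ℤ) : ℂ) *
          ((c : ℂ) * β (ν₁ : Γ) z) = (((n : ℝ) * c - ⌊(n : ℝ) * c⌋ : ℝ) : ℂ) *
          β (ν₁ : Γ) z := by
        push_cast
        ring
      rw [h1, norm_mul, Complex.norm_real, Real.norm_eq_abs]
      refine mul_le_of_le_one_left (norm_nonneg _) ?_
      have h2 := Int.floor_le ((n : ℝ) * c)
      have h3 := Int.lt_floor_add_one ((n : ℝ) * c)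
      rw [abs_le]
      constructor <;> linarith

/-- Linear parts of unipotent elements. -/
theorem a_eq_one (h : LAct D g a β) {z₀ : Cn b} (hz₀ : z₀ ∈ D) {ν : Γ}
    (hν : ∀ y ∈ D, g ν y = y) (ha : a ν z₀ = 1) (hb : β ν z₀ ≠ 0) {z : Cn b} (hz : z ∈ D) :
    a ν z = 1 := by
  by_contra hne
  have hgp : ∀ k : ℕ, ∀ y ∈ D, g (ν ^ k) y = y := by
    intro k
    induction k with
    | zero => intro y hy; rw [pow_zero, h.base.act.one y hy]
    | succ k ih => intro y hy; rw [h.base.act.pow' ν k hy, hν y hy, ih y hy]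
  have h0 : ∀ k : ℕ, a (ν ^ k) z₀ = 1 ∧ β (ν ^ k) z₀ = k * β ν z₀ := by
    intro k
    induction k with
    | zero => simp [h.a_one z₀ hz₀, h.b_one z₀ hz₀]
    | succ k ih =>
      rw [pow_succ, h.a_mul _ _ z₀ hz₀, h.b_mul _ _ z₀ hz₀, hν z₀ hz₀, ih.1, ih.2, ha]
      push_cast
      exact ⟨by ring, by ring⟩
  have hne' : 1 - a ν z ≠ 0 := sub_ne_zero.2 fun e => hne e.symm
  set w : ℂ := β ν z / (1 - a ν z) with hw
  have hfix : a ν z * w + β ν z = w := by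
    rw [hw]
    field_simp
    ring
  have hfixk : ∀ k : ℕ, a (ν ^ k) z * w + β (ν ^ k) z = w := by
    intro k
    induction k with
    | zero => simp [h.a_one z hz, h.b_one z hz]
    | succ k ih =>
      rw [pow_succ, h.a_mul _ _ z hz, h.b_mul _ _ z hz, hν z hz]
      linear_combination ih + a (ν ^ k) z * hfix
  have hfin := h.proper {z} (singleton_subset_iff.2 hz) isCompact_singleton ‖w‖
  refine (Set.infinite_of_injective_forall_mem (f := fun k : ℕ => ν ^ k) ?_ ?_) hfin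
  · intro i j hij
    have h1 := (h0 i).2
    have hij' : ν ^ i = ν ^ j := hij
    rw [hij', (h0 j).2] at h1
    have h2 := mul_right_cancel₀ hb h1
    exact_mod_cast h2.symm
  · intro k
    exact ⟨z, rfl, w, le_rfl, hgp k z hz, by rw [hfixk k]⟩

end latt

theorem stmtLATT (hF : S_FIBC) (hC : S_CRYST) : S_LATT := by
  intro b D Γ _ g a β h hd
  obtain ⟨z₀, hz₀⟩ := h.base.dom.conn.nonempty
  obtain ⟨ν₁, ν₂, ha₁, ha₂, hli⟩ := hC (kerG h) (fun ν => a (ν : Γ) z₀) (fun ν => β (ν : Γ) z₀)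
    (fun ν => h.a_ne _ z₀ hz₀) (h.a_one z₀ hz₀) (h.b_one z₀ hz₀)
    (fun ν ν' => by
      rw [Subgroup.coe_mul, h.a_mul _ _ z₀ hz₀, ν'.2 z₀ hz₀])
    (fun ν ν' => by
      rw [Subgroup.coe_mul, h.b_mul _ _ z₀ hz₀, ν'.2 z₀ hz₀])
    (fun R => by
      have h1 := h.proper {z₀} (singleton_subset_iff.2 hz₀) isCompact_singleton R
      refine (h1.preimage (f := fun ν : kerG h => (ν : Γ))
        Subtype.coe_injective.injOn).subset ?_
      rintro ν ⟨w, hw, hw'⟩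
      exact ⟨z₀, rfl, w, hw, ν.2 z₀ hz₀, hw'⟩)
    (by
      obtain ⟨R, hR⟩ := hF h hd z₀ hz₀
      refine ⟨R, fun w => ?_⟩
      obtain ⟨γ, hγ, hγR⟩ := hR w
      exact ⟨⟨γ, hγ⟩, hγR⟩)
  have hne₁ : β (ν₁ : Γ) z₀ ≠ 0 := by
    have := hli.ne_zero 0
    simpa using this
  have hne₂ : β (ν₂ : Γ) z₀ ≠ 0 := by
    have := hli.ne_zero 1
    simpa using this
  have hA₁ : ∀ z ∈ D, a (ν₁ : Γ) z = 1 := fun z hz => a_eq_one h hz₀ ν₁.2 ha₁ hne₁ hz
  have hA₂ : ∀ z ∈ D, a (ν₂ : Γ) z = 1 := fun z hz => a_eq_one h hz₀ ν₂.2 ha₂ hne₂ hz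
  set t₁ : kerT h := ⟨ν₁, fun y hy => ⟨ν₁.2 y hy, hA₁ y hy⟩⟩ with ht₁
  set t₂ : kerT h := ⟨ν₂, fun y hy => ⟨ν₂.2 y hy, hA₂ y hy⟩⟩ with ht₂
  refine ⟨ν₁, ν₂, fun z hz => ⟨ν₁.2 z hz, ν₂.2 z hz, hA₁ z hz, hA₂ z hz⟩, fun z hz => ?_⟩
  rw [LinearIndependent.pair_iff]
  intro s t hst
  rw [real_smul, real_smul] at hst
  have hli' : LinearIndependent ℝ ![β (t₂ : Γ) z₀, β (t₁ : Γ) z₀] :=
    LinearIndependent.pair_symm_iff.1 hli
  by_contra hcon
  by_cases ht : t = 0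
  · have hs : s ≠ 0 := fun hs => hcon ⟨hs, ht⟩
    have hs' : (s : ℂ) ≠ 0 := by exact_mod_cast hs
    refine nodep h hz₀ (ν₁ := t₂) (ν₂ := t₁) hli' hz (-(t / s)) ?_
    show β (ν₁ : Γ) z = _ * β (ν₂ : Γ) z
    push_cast
    field_simp
    linear_combination hst
  · have ht' : (t : ℂ) ≠ 0 := by exact_mod_cast ht
    refine nodep h hz₀ (ν₁ := t₁) (ν₂ := t₂) hli hz (-(s / t)) ?_
    show β (ν₂ : Γ) z = _ * β (ν₁ : Γ) z
    push_cast
    field_simp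
    linear_combination hst

end Pool.Agent.Helper33.Lin
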