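import Pool.Agent.Helper95.Lin.GoalsA
import Pool.Agent.Helper95.Lin.Basics

/-! # Packet NEAR: uniform local compactness -/

open Complex Metric Set Filter Topology MeasureTheory
open scoped ContDiff ComplexConjugate ComplexOrder

namespace Pool.Agent.Helper33.Lin

open Pool.Agent.Helper95.Lin

theorem stmtNEAR (hU : S_CLEUP) : S_NEAR := by
  intro b D Γ _ g h
  obtain ⟨Kc, hKcD, hKcc, hcoc⟩ := h.coc
  obtain ⟨R, hR, hRD⟩ := h.dom.exists_norm_le
  obtain ⟨ρ, hρ, hρK⟩ := hKcc.exists_cthickening_subset_open h.dom.isOpen hKcD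
  have hK₁ : IsCompact (cthickening ρ Kc) := hKcc.cthickening
  refine ⟨ρ / (2 * R), by positivity, fun K hKD hK => ?_⟩
  set δ : ℝ := ρ / (2 * R) with hδ
  have hδ0 : 0 < δ := by positivity
  have hRδ : R * (δ + δ) = ρ := by
    rw [hδ]
    field_simp
    ring
  refine hK.induction_on (p := fun S => ∃ K' ⊆ D, IsCompact K' ∧
    ∀ x ∈ S, ∀ y ∈ D, CLe D δ x y → y ∈ K') ?_ ?_ ?_ ?_
  · exact ⟨∅, empty_subset _, isCompact_empty, fun x hx => absurd hx (notMem_empty x)⟩
  · rintro s t hst ⟨K', hK', hc, hp⟩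
    exact ⟨K', hK', hc, fun x hx => hp x (hst hx)⟩
  · rintro s t ⟨K', hK', hc, hp⟩ ⟨K'', hK'', hc', hp'⟩
    refine ⟨K' ∪ K'', union_subset hK' hK'', hc.union hc', ?_⟩
    rintro x (hx | hx) y hy hxy
    · exact Or.inl (hp x hx y hy hxy)
    · exact Or.inr (hp' x hx y hy hxy)
  · intro x hx
    have hxD := hKD hx
    obtain ⟨γ, hγ⟩ := hcoc x hxD
    obtain ⟨C, r, hC, hr, hCr⟩ := hU D h.dom.isOpen {x} (singleton_subset_iff.2 hxD)
      isCompact_singleton
    refine ⟨ball x (min r (δ / (C + 1))), mem_nhdsWithin_of_mem_nhds (ball_mem_nhds _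
      (by positivity)), g γ⁻¹ '' cthickening ρ Kc, ?_, ?_, ?_⟩
    · rintro _ ⟨y, hy, rfl⟩
      exact h.act.maps _ _ (hρK hy)
    · exact hK₁.image_of_continuousOn ((h.act.holo _).continuousOn.mono hρK)
    · intro x' hx' y hy hxy
      rw [mem_ball, dist_comm, dist_eq_norm] at hx'
      have h1 := (hCr x rfl x' (hx'.le.trans (min_le_left _ _))).2
      have h2 : C * ‖x - x'‖ ≤ δ := by
        have h3 : ‖x - x'‖ ≤ δ / (C + 1) := hx'.le.trans (min_le_right _ _)
        calc C * ‖x - x'‖ ≤ (C + 1) * (δ / (C + 1)) := by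
              apply mul_le_mul (by linarith) h3 (norm_nonneg _) (by linarith)
          _ = δ := by field_simp
      have h4 : CLe D (δ + δ) (g γ x) (g γ y) := ((h1.mono h2).trans hxy).act h.act γ
      have h5 : ‖g γ x - g γ y‖ ≤ ρ := by
        have := h4.norm_le hR hRD
        rwa [hRδ] at this
      refine ⟨g γ y, ?_, h.act.inv_left γ hy⟩
      refine mem_cthickening_of_dist_le _ (g γ x) ρ _ hγ ?_
      rwa [dist_comm, dist_eq_norm]

end Pool.Agent.Helper33.Lin
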